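import Pool.Agent.Helper30.DN.Stm

/-!
# DN: the ring data
-/

set_option autoImplicit false

namespace Pool.Agent.Helper45.DN

open Pool.Agent.Helper8.CK (RFR)
open Pool.Agent.Helper30.DN (F Dat S_RING)

noncomputable section

/-! ### Residually finite monoids -/

/-- residually finite monoids -/
def RFM (M : Type) [Monoid M] : Prop :=
  ∀ a b : M, a ≠ b → ∃ (H : Type) (_ : Monoid H) (_ : Finite H) (f : M →* H), f a ≠ f b

theorem rfr_mon (K M : Type) [Field K] [Finite K] [Monoid M] (h : RFM M) :
    RFR (MonoidAlgebra K M) := by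
  classical
  intro z hz
  have hz' : z.coeff ≠ 0 := fun h0 => hz (MonoidAlgebra.coeff_injective (by simpa using h0))
  obtain ⟨d0, hd0⟩ := Finsupp.support_nonempty_iff.2 hz'
  have key : ∀ d : M, ∃ (H : Type) (_ : Monoid H) (_ : Finite H) (f : M →* H),
      d ≠ d0 → f d ≠ f d0 := by
    intro d
    by_cases hd : d = d0
    · exact ⟨Unit, inferInstance, inferInstance, 1, fun h => absurd hd h⟩
    · obtain ⟨H, _, _, f, hf⟩ := h d d0 hd
      exact ⟨H, inferInstance, inferInstance, f, fun _ => hf⟩
  choose H hG hF f hf using key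
  let f' : M →* (∀ d : z.coeff.support, H d) :=
    { toFun := fun x d => f d x
      map_one' := by
        ext d
        simp
      map_mul' := by
        intro a b
        ext d
        simp }
  have hsep : ∀ d ∈ z.coeff.support, d ≠ d0 → f' d ≠ f' d0 := fun d hd hne h0 =>
    hf d hne (congrFun h0 ⟨d, hd⟩)
  have hfin : Finite (MonoidAlgebra K (∀ d : z.coeff.support, H d)) :=
    Finite.of_injective (fun x : MonoidAlgebra K (∀ d : z.coeff.support, H d) => (x.coeff : _ → K))
      fun x y hxy => MonoidAlgebra.coeff_injective (DFunLike.coe_injective hxy)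
  refine ⟨MonoidAlgebra K (∀ d : z.coeff.support, H d), inferInstance, hfin,
    MonoidAlgebra.mapDomainRingHom K f', fun h0 => ?_⟩
  have h1 : (Finsupp.mapDomain f' z.coeff) (f' d0) = 0 := by
    have := congrArg (fun x => x.coeff (f' d0)) h0
    simpa using this
  rw [Finsupp.mapDomain, Finsupp.sum_apply, Finsupp.sum, Finset.sum_eq_single d0] at h1
  · rw [Finsupp.single_eq_same] at h1
    exact (Finsupp.mem_support_iff.1 hd0) h1
  · intro d hd hne
    exact Finsupp.single_eq_of_ne' (hsep d hd hne)
  · intro h2
    exact absurd hd0 h2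

theorem rfm_prod {M N : Type} [Monoid M] [Monoid N] (hM : RFM M) (hN : RFM N) : RFM (M × N) := by
  intro a b hab
  by_cases h : a.1 = b.1
  · have h2 : a.2 ≠ b.2 := fun h2 => hab (Prod.ext h h2)
    obtain ⟨H, i1, i2, f, hf⟩ := hN _ _ h2
    exact ⟨H, i1, i2, f.comp (MonoidHom.snd M N), hf⟩
  · obtain ⟨H, i1, i2, f, hf⟩ := hM _ _ h
    exact ⟨H, i1, i2, f.comp (MonoidHom.fst M N), hf⟩

theorem rfm_int : RFM (Multiplicative ℤ) := by
  intro a b hab
  obtain ⟨k, hk⟩ : ∃ k : ℕ, k = (Multiplicative.toAdd a - Multiplicative.toAdd b).natAbs + 1 :=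
    ⟨_, rfl⟩
  have hk0 : NeZero k := ⟨by omega⟩
  refine ⟨Multiplicative (ZMod k), inferInstance, inferInstance,
    AddMonoidHom.toMultiplicative (Int.castAddHom (ZMod k)), fun h => hab ?_⟩
  have h1 : ((Multiplicative.toAdd a : ℤ) : ZMod k) = ((Multiplicative.toAdd b : ℤ) : ZMod k) := h
  rw [ZMod.intCast_eq_intCast_iff_dvd_sub] at h1
  have h2 : Multiplicative.toAdd b - Multiplicative.toAdd a = 0 := by
    apply Int.eq_zero_of_abs_lt_dvd h1
    rw [Int.abs_eq_natAbs]
    omega
  have h3 : Multiplicative.toAdd a = Multiplicative.toAdd b := by omega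
  exact Multiplicative.toAdd.injective h3

theorem take_app {α : Type} (n : ℕ) (w l : List α) :
    (w ++ l.take n).take n = (w ++ l).take n := by
  rw [List.take_append, List.take_append, List.take_take]
  congr 2
  omega

theorem rfm_free {α : Type} [Finite α] : RFM (FreeMonoid α) := by
  intro a b hab
  obtain ⟨n, hn⟩ : ∃ n : ℕ, n = (FreeMonoid.toList a).length + (FreeMonoid.toList b).length :=
    ⟨_, rfl⟩
  have hfin : Finite {l : List α // l.length ≤ n} := (List.finite_length_le α n).to_subtype
  let f : FreeMonoid α →* Function.End {l : List α // l.length ≤ n} :=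
    { toFun := fun w l => ⟨(FreeMonoid.toList w ++ l.1).take n, by
        rw [List.length_take]
        exact min_le_left _ _⟩
      map_one' := by
        funext l
        apply Subtype.ext
        show (FreeMonoid.toList 1 ++ l.1).take n = l.1
        rw [FreeMonoid.toList_one, List.nil_append, List.take_of_length_le l.2]
      map_mul' := by
        intro v w
        funext l
        apply Subtype.ext
        show (FreeMonoid.toList (v * w) ++ l.1).take n =
          (FreeMonoid.toList v ++ (FreeMonoid.toList w ++ l.1).take n).take n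
        rw [take_app, FreeMonoid.toList_mul, List.append_assoc] }
  have hfin2 : Finite (Function.End {l : List α // l.length ≤ n}) :=
    inferInstanceAs (Finite ({l : List α // l.length ≤ n} → {l : List α // l.length ≤ n}))
  refine ⟨_, inferInstance, hfin2, f, fun h => hab ?_⟩
  have h1 := congrArg Subtype.val (congrFun h ⟨[], by simp⟩)
  have h2 : (FreeMonoid.toList a ++ []).take n = (FreeMonoid.toList b ++ []).take n := h1
  rw [List.append_nil, List.append_nil, List.take_of_length_le (by omega),
    List.take_of_length_le (by omega)] at h2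
  exact FreeMonoid.toList.injective h2

/-! ### The monoid and the endomorphisms -/

/-- the monoid -/
abbrev M : Type := FreeMonoid (Fin 4) × Multiplicative ℤ

theorem rfm_M : RFM M := rfm_prod rfm_free rfm_int

/-- the algebra -/
abbrev U : Type := MonoidAlgebra F M

/-- the endomorphisms -/
def E : Type := Module.End F (ℕ → F)

instance ringE : Ring E := inferInstanceAs (Ring (Module.End F (ℕ → F)))

instance algE : Algebra F E := inferInstanceAs (Algebra F (Module.End F (ℕ → F)))

instance ntE : Nontrivial E := inferInstanceAs (Nontrivial (Module.End F (ℕ → F)))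

def y1 : Module.End F (ℕ → F) where
  toFun f n := f (2 * n)
  map_add' _ _ := rfl
  map_smul' _ _ := rfl

def x1 : Module.End F (ℕ → F) where
  toFun f m := if m % 2 = 0 then f (m / 2) else 0
  map_add' f g := by
    funext m
    by_cases h : m % 2 = 0
    · simp [h]
    · simp [h]
  map_smul' c f := by
    funext m
    by_cases h : m % 2 = 0
    · simp [h]
    · simp [h]

def a1 : Module.End F (ℕ → F) where
  toFun f m := f (m / 2)
  map_add' _ _ := rfl
  map_smul' _ _ := rfl

def b1 : Module.End F (ℕ → F) where
  toFun f n := f (2 * n + 1)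
  map_add' _ _ := rfl
  map_smul' _ _ := rfl

def x0 : E := x1
def y0 : E := y1
def a0 : E := a1
def b0 : E := b1

theorem yx1 : y1 * x1 = 1 := by
  ext f n
  show (if (2 * n) % 2 = 0 then f ((2 * n) / 2) else 0) = f n
  rw [if_pos (by omega)]
  congr 1
  omega

theorem bxya1 : b1 * (1 - x1 * y1) * a1 = 1 := by
  ext f n
  show f ((2 * n + 1) / 2) - (if (2 * n + 1) % 2 = 0 then _ else 0) = f n
  rw [if_neg (by omega), sub_zero]
  congr 1
  omega

theorem yx0 : y0 * x0 = 1 := yx1

theorem bxya0 : b0 * (1 - x0 * y0) * a0 = 1 := bxya1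

/-- the representation of the free monoid -/
def rho : FreeMonoid (Fin 4) →* E := FreeMonoid.lift ![x0, y0, a0, b0]

/-- the powers of the variable -/
def tpow : Multiplicative ℤ →* LaurentPolynomial E where
  toFun n := LaurentPolynomial.T (Multiplicative.toAdd n)
  map_one' := LaurentPolynomial.T_zero
  map_mul' _ _ := LaurentPolynomial.T_add _ _

/-- the representation of the monoid -/
def rhoM : M →* LaurentPolynomial E :=
  MonoidHom.noncommCoprod ((LaurentPolynomial.C : E →+* LaurentPolynomial E).toMonoidHom.comp rho)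
    tpow (fun _ n => (LaurentPolynomial.commute_T (Multiplicative.toAdd n) _).symm)

/-- the representation of the algebra -/
def Psi : U →ₐ[F] LaurentPolynomial E := MonoidAlgebra.lift F (LaurentPolynomial E) M rhoM

/-- the generators -/
def gU (i : Fin 4) : U := MonoidAlgebra.of F M (FreeMonoid.of i, 1)

def tU : U := MonoidAlgebra.of F M (1, Multiplicative.ofAdd 1)

def sU : U := MonoidAlgebra.of F M (1, Multiplicative.ofAdd (-1))

theorem ts : tU * sU = 1 := by
  unfold tU sU
  rw [← map_mul]
  exact map_one (MonoidAlgebra.of F M)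

theorem t_comm (z : U) : tU * z = z * tU := by
  induction z using MonoidAlgebra.induction_on with
  | of m =>
    unfold tU
    rw [← map_mul, ← map_mul]
    congr 1
    apply Prod.ext
    · simp
    · simp [mul_comm]
  | add x y hx hy => rw [mul_add, add_mul, hx, hy]
  | smul r x hx => rw [mul_smul_comm, smul_mul_assoc, hx]

theorem Psi_g (i : Fin 4) : Psi (gU i) = LaurentPolynomial.C (![x0, y0, a0, b0] i) := by
  unfold Psi gU
  rw [MonoidAlgebra.of_apply, MonoidAlgebra.lift_single, one_smul]
  show LaurentPolynomial.C (rho (FreeMonoid.of i)) * LaurentPolynomial.T 0 = _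
  rw [LaurentPolynomial.T_zero, mul_one]
  unfold rho
  rw [FreeMonoid.lift_eval_of]

theorem Psi_t : Psi tU = LaurentPolynomial.T 1 := by
  unfold Psi tU
  rw [MonoidAlgebra.of_apply, MonoidAlgebra.lift_single, one_smul]
  show LaurentPolynomial.C (rho 1) * LaurentPolynomial.T 1 = _
  rw [map_one, map_one, one_mul]

/-! ### The ring -/

/-- the big ring -/
abbrev W : Type := U × Polynomial E

def pX : W := (gU 0, Polynomial.C x0)
def pY : W := (gU 1, Polynomial.C y0)
def pA : W := (gU 2, Polynomial.C a0)
def pB : W := (gU 3, Polynomial.C b0)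
def pU : W := (sU * (gU 1 * gU 0 - 1), 0)
def pV : W := (sU * (gU 3 * (1 - gU 0 * gU 1) * gU 2 - 1), 0)
def pT : W := (tU, Polynomial.X)

/-- the generators -/
def gens : Set W := {pX, pY, pA, pB, pU, pV, pT}

/-- the ring -/
abbrev BB : Type := Algebra.adjoin F gens

theorem alg_laurent (c : F) : (algebraMap F (LaurentPolynomial E) c) =
    LaurentPolynomial.C (algebraMap F E c) := rfl

theorem Psi_lau (w : W) (hw : w ∈ Algebra.adjoin F gens) :
    Psi w.1 = Polynomial.toLaurent w.2 := by
  induction hw using Algebra.adjoin_induction with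
  | mem w hw =>
    rcases hw with rfl | rfl | rfl | rfl | rfl | rfl | rfl
    · show Psi (gU 0) = Polynomial.toLaurent (Polynomial.C x0)
      rw [Psi_g, Polynomial.toLaurent_C]
      rfl
    · show Psi (gU 1) = Polynomial.toLaurent (Polynomial.C y0)
      rw [Psi_g, Polynomial.toLaurent_C]
      rfl
    · show Psi (gU 2) = Polynomial.toLaurent (Polynomial.C a0)
      rw [Psi_g, Polynomial.toLaurent_C]
      rfl
    · show Psi (gU 3) = Polynomial.toLaurent (Polynomial.C b0)
      rw [Psi_g, Polynomial.toLaurent_C]
      rfl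
    · show Psi (sU * (gU 1 * gU 0 - 1)) = Polynomial.toLaurent 0
      rw [map_mul, map_sub, map_mul, Psi_g, Psi_g, map_one, ← map_mul, map_zero]
      have h : (![x0, y0, a0, b0] 1 * ![x0, y0, a0, b0] 0 : E) = 1 := yx0
      rw [h, map_one, sub_self, mul_zero]
    · show Psi (sU * (gU 3 * (1 - gU 0 * gU 1) * gU 2 - 1)) = Polynomial.toLaurent 0
      rw [map_mul, map_sub, map_mul, map_mul, map_sub, map_mul, Psi_g, Psi_g, Psi_g, Psi_g,
        map_one, map_zero]
      have h : LaurentPolynomial.C (![x0, y0, a0, b0] 3) *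
          (1 - LaurentPolynomial.C (![x0, y0, a0, b0] 0) *
            LaurentPolynomial.C (![x0, y0, a0, b0] 1)) *
          LaurentPolynomial.C (![x0, y0, a0, b0] 2) = (1 : LaurentPolynomial E) := by
        have h1 := congrArg (LaurentPolynomial.C : E →+* LaurentPolynomial E) bxya0
        rw [map_mul, map_mul, map_sub, map_mul, map_one] at h1
        exact h1
      rw [h, sub_self, mul_zero]
    · show Psi tU = Polynomial.toLaurent Polynomial.X
      rw [Psi_t, Polynomial.toLaurent_X]
  | algebraMap c =>
    show Psi (algebraMap F U c) = Polynomial.toLaurent (algebraMap F (Polynomial E) c)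
    rw [AlgHom.commutes, Polynomial.algebraMap_apply, Polynomial.toLaurent_C]
    rfl
  | add x y _ _ hx hy =>
    show Psi (x.1 + y.1) = Polynomial.toLaurent (x.2 + y.2)
    rw [map_add, map_add, hx, hy]
  | mul x y _ _ hx hy =>
    show Psi (x.1 * y.1) = Polynomial.toLaurent (x.2 * y.2)
    rw [map_mul, map_mul, hx, hy]

theorem mem_gens {w : W} (h : w ∈ gens) : w ∈ Algebra.adjoin F gens := Algebra.subset_adjoin h

def qX : BB := ⟨pX, mem_gens (by simp [gens])⟩
def qY : BB := ⟨pY, mem_gens (by simp [gens])⟩
def qA : BB := ⟨pA, mem_gens (by simp [gens])⟩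
def qB : BB := ⟨pB, mem_gens (by simp [gens])⟩
def qU : BB := ⟨pU, mem_gens (by simp [gens])⟩
def qV : BB := ⟨pV, mem_gens (by simp [gens])⟩
def qT : BB := ⟨pT, mem_gens (by simp [gens])⟩

theorem dat : Dat BB qX qY qA qB qU qV qT where
  tc := by
    intro z
    apply Subtype.ext
    apply Prod.ext
    · exact t_comm z.1.1
    · exact Polynomial.X_mul
  r1 := by
    apply Subtype.ext
    apply Prod.ext
    · show gU 1 * gU 0 = 1 + tU * (sU * (gU 1 * gU 0 - 1))
      rw [← mul_assoc, ts, one_mul]
      abel
    · show Polynomial.C y0 * Polynomial.C x0 = 1 + Polynomial.X * 0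
      rw [← Polynomial.C_mul, yx0, mul_zero, add_zero, Polynomial.C_1]
  r2 := by
    apply Subtype.ext
    apply Prod.ext
    · show gU 3 * (1 - gU 0 * gU 1) * gU 2 =
        1 + tU * (sU * (gU 3 * (1 - gU 0 * gU 1) * gU 2 - 1))
      rw [← mul_assoc tU sU, ts, one_mul]
      abel
    · show Polynomial.C b0 * (1 - Polynomial.C x0 * Polynomial.C y0) * Polynomial.C a0 =
        1 + Polynomial.X * 0
      rw [mul_zero, add_zero, ← Polynomial.C_1, ← Polynomial.C_mul, ← Polynomial.C_sub,
        ← Polynomial.C_mul, ← Polynomial.C_mul, bxya0]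
  gen := by
    rw [eq_top_iff, ← Algebra.adjoin_adjoin_coe_preimage (R := F) (s := gens)]
    apply Algebra.adjoin_mono
    intro z hz
    have hz' : (z : W) ∈ gens := hz
    rcases hz' with h | h | h | h | h | h | h
    · exact Or.inl (Subtype.ext h)
    · exact Or.inr (Or.inl (Subtype.ext h))
    · exact Or.inr (Or.inr (Or.inl (Subtype.ext h)))
    · exact Or.inr (Or.inr (Or.inr (Or.inl (Subtype.ext h))))
    · exact Or.inr (Or.inr (Or.inr (Or.inr (Or.inl (Subtype.ext h)))))
    · exact Or.inr (Or.inr (Or.inr (Or.inr (Or.inr (Or.inl (Subtype.ext h))))))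
    · exact Or.inr (Or.inr (Or.inr (Or.inr (Or.inr (Or.inr (Subtype.ext h))))))
  rf := by
    intro z hz
    have h1 : z.1.1 ≠ 0 := by
      intro h0
      apply hz
      apply Subtype.ext
      apply Prod.ext
      · exact h0
      · have h2 := Psi_lau z.1 z.2
        rw [h0, map_zero] at h2
        exact Polynomial.toLaurent_injective (h2.symm.trans (map_zero _).symm)
    obtain ⟨S, i1, i2, f, hf⟩ := rfr_mon F M rfm_M z.1.1 h1
    exact ⟨S, i1, i2, (f.comp (RingHom.fst U (Polynomial E))).comp
      (Algebra.adjoin F gens).val.toRingHom, hf⟩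
  nt := by
    refine ⟨E, inferInstance, inferInstance,
      (Polynomial.constantCoeff.comp (RingHom.snd U (Polynomial E))).comp
        (Algebra.adjoin F gens).val.toRingHom, ?_⟩
    show Polynomial.constantCoeff (Polynomial.X : Polynomial E) = 0
    simp

theorem s_ring : S_RING := ⟨BB, inferInstance, inferInstance, qX, qY, qA, qB, qU, qV, qT, dat⟩

end

end Pool.Agent.Helper45.DN
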